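import Mathlib
import Pool.Agent.Lib.helper26.PplA

set_option autoImplicit false

namespace Pool.Agent.Results.MP_f91ac8_co.NotRegular

open Pool.Agent.Lib.H26Ppl

/-- the prefix `w 1, ..., w n` -/
def pref {A : Type} (w : ℕ → A) (n : ℕ) : List A := (List.range n).map fun i => w (i + 1)

/-- prefix palindromic length: least number of non-empty palindromes whose product is the prefix -/
noncomputable def PPL {A : Type} (w : ℕ → A) (n : ℕ) : ℕ :=
  sInf {k | ∃ L : List (List A), L.length = k ∧ L.flatten = pref w n ∧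
    ∀ p ∈ L, p ≠ [] ∧ p.reverse = p}

/-- `w n` is the output of a finite automaton reading the base `d` expansion of `n`
(most significant digit first) -/
def Automatic {A : Type} (d : ℕ) (w : ℕ → A) : Prop :=
  ∃ (Q : Type) (_ : Finite Q) (q0 : Q) (δ : Q → ℕ → Q) (out : Q → A),
    ∀ n, w n = out ((Nat.digits d n).reverse.foldl δ q0)

/-- the `d`-kernel of `f` spans a finitely generated module over the integers -/
def Regular (d : ℕ) (f : ℕ → ℤ) : Prop :=
  (Submodule.span ℤ {g : ℕ → ℤ | ∃ e r : ℕ, r < d ^ e ∧ g = fun n => f (d ^ e * n + r)}).FG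

noncomputable def seg (i j : ℕ) : List (Fin 3) := (List.range (j - i)).map fun s => u (i + s + 1)

theorem pref_add {i j : ℕ} (h : i ≤ j) : pref u j = pref u i ++ seg i j := by
  obtain ⟨k, rfl⟩ := Nat.exists_eq_add_of_le h
  simp [pref, seg, List.range_add, Function.comp_def]

theorem seg_pal {i j : ℕ} (h : i ≤ j) : (seg i j).reverse = seg i j ↔ Pal i j := by
  constructor
  · intro e s s' a b c
    have h1 : s - i - 1 < (seg i j).length := by simp [seg]; omega
    have h2 := List.getElem_of_eq e.symm h1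
    rw [List.getElem_reverse] at h2
    simp only [seg, List.getElem_map, List.getElem_range, List.length_map, List.length_range] at h2
    rw [show i + (s - i - 1) + 1 = s by omega,
      show i + (j - i - 1 - (s - i - 1)) + 1 = s' by omega] at h2
    exact h2
  · intro e
    refine List.ext_getElem (by simp) fun k h1 h2 => ?_
    rw [List.getElem_reverse]
    simp only [seg, List.getElem_map, List.getElem_range, List.length_map,
      List.length_range] at h2 ⊢
    exact e _ _ (by omega) (by omega) (by omega)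

def Fac (n k : ℕ) : Prop :=
  ∃ L : List (List (Fin 3)), L.length = k ∧ L.flatten = pref u n ∧ ∀ p ∈ L, p ≠ [] ∧ p.reverse = p

theorem Fac.step {i j k : ℕ} (h : Fac i k) (hij : i < j) (hp : Pal i j) : Fac j (k + 1) := by
  obtain ⟨L, h1, h2, h3⟩ := h
  refine ⟨L ++ [seg i j], by simp [h1], by simp [h2, pref_add hij.le], fun p hp' => ?_⟩
  rcases List.mem_append.1 hp' with h | h
  · exact h3 p h
  · rw [List.mem_singleton.1 h]
    refine ⟨fun e => ?_, (seg_pal hij.le).2 hp⟩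
    have := congrArg List.length e
    simp [seg] at this
    omega

theorem pal_one (i : ℕ) : Pal i (i + 1) := fun s s' a b c => by
  have : s = s' := by omega
  rw [this]

theorem fac_self (n : ℕ) : Fac n n := by
  induction n with
  | zero => exact ⟨[], rfl, rfl, by simp⟩
  | succ n ih => exact ih.step (by omega) (pal_one n)

theorem fac_PPL (n : ℕ) : Fac n (PPL u n) := Nat.sInf_mem (s := {k | Fac n k}) ⟨n, fac_self n⟩

theorem PPL_le {n k : ℕ} (h : Fac n k) : PPL u n ≤ k := Nat.sInf_le (s := {k | Fac n k}) h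

theorem edge {i j : ℕ} (hij : i ≤ j) (hp : Pal i j) : PPL u j ≤ PPL u i + 1 := by
  rcases hij.eq_or_lt with rfl | h
  · omega
  · exact PPL_le ((fac_PPL i).step h hp)

theorem lower (L : List (List (Fin 3))) : ∀ n, L.flatten = pref u n →
    (∀ p ∈ L, p.reverse = p) → Φ n ≤ L.length := by
  induction L using List.reverseRecOn with
  | nil =>
    intro n h _
    have := congrArg List.length h
    simp [pref] at this
    rw [← this, Φ_zero]; rfl
  | append_singleton L p ih =>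
    intro n h hp
    have hl := congrArg List.length h
    simp only [List.flatten_append, List.flatten_singleton, List.length_append, pref,
      List.length_map, List.length_range] at hl
    have hi : L.flatten.length ≤ n := by omega
    rw [List.flatten_append, List.flatten_singleton, pref_add hi] at h
    obtain ⟨e1, e2⟩ := List.append_inj h (by simp [pref])
    have h1 := ih _ e1 fun q hq => hp q (List.mem_append_left _ hq)
    have h2 := Φ_pal _ _ hi ((seg_pal hi).1 (e2 ▸ hp p (by simp)))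
    rw [List.length_append, List.length_singleton]
    omega

theorem Φ_le (n : ℕ) : Φ n ≤ PPL u n := by
  obtain ⟨L, h1, h2, h3⟩ := fac_PPL n
  exact h1 ▸ lower L n h2 fun p hp => (h3 p hp).2

theorem chainV (E : ℕ) : ∃ v, 3 * 4 ^ E ≤ v + 1 ∧ v ≤ 4 * 4 ^ E ∧ PPL u v ≤ E + 2 := by
  induction E with
  | zero => exact ⟨2, by simp, by simp, PPL_le (fac_self 2)⟩
  | succ E ih =>
    obtain ⟨v, h1, h2, h3⟩ := ih
    have := ps E
    have := pp E
    have := edge (i := v) (j := 16 * 4 ^ E - 1 - v) (by omega) (symC E _ _ (by omega) h1)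
    exact ⟨16 * 4 ^ E - 1 - v, by omega, by omega, by omega⟩

theorem gapR {E d s p : ℕ} (hd : d ≤ E) (h1 : 4 ^ E ≤ s) (h2 : 4 * 4 ^ E + 4 ^ d < 4 * s)
    (h3 : s < 4 ^ E + 4 * 4 ^ d) (h4 : 4 * s < 11 * 4 ^ E ∨ d < E) (h : Mk p s) :
    s = 4 ^ E + 4 ^ d := by
  have := ple hd
  have : d < E → 4 * 4 ^ d ≤ 4 ^ E := p4
  obtain ⟨t, ht, -, h⟩ := Mk_loc (E := E) (by omega) (by omega) h
  have := ple ht
  rcases pow_tri t d with l | l | l
  · rcases pow_tri d E with l2 | l2 | l2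
    · omega
    · subst l2; omega
    · omega
  · subst l
    rcases pow_tri t E with l2 | l2 | l2
    · omega
    · subst l2; omega
    · omega
  · rcases pow_tri t E with l2 | l2 | l2
    · omega
    · subst l2; omega
    · omega

theorem chainR (E d : ℕ) (hd : d ≤ E) : ∃ w, 4 ^ (E + 1) ≤ w ∧ w < 4 ^ (E + 1) + 4 ^ d ∧
    4 * 4 ^ (E + 1) + 4 ^ d ≤ 4 * w + 1 ∧ PPL u w ≤ E + 3 + d := by
  have := ps E
  have := pp E
  induction d with
  | zero =>
    obtain ⟨v, h1, h2, h3⟩ := chainV E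
    have := edge (i := v) (j := 4 * 4 ^ E) h2 (symM _ _ (4 * 4 ^ E + 1) (fun s p a b c => by
      obtain ⟨t, ht, -, h⟩ := Mk_loc (E := E) (by omega) (by omega) c
      have := ple ht
      have := pp t
      omega) (by omega))
    exact ⟨4 * 4 ^ E, by omega, by omega, by omega, by omega⟩
  | succ d ih =>
    obtain ⟨w, h1, h2, h3, h4⟩ := ih (by omega)
    have := ps d
    have := pp d
    have := edge (i := w) (j := 2 * (4 ^ (E + 1) + 4 ^ d) - 1 - w) (by omega)
      (symM _ _ (4 ^ (E + 1) + 4 ^ d) (fun s p a b c =>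
        gapR (by omega) (by omega) (by omega) (by omega) (by omega) c) (by omega))
    exact ⟨2 * (4 ^ (E + 1) + 4 ^ d) - 1 - w, by omega, by omega, by omega, by omega⟩

theorem upper1 (E d : ℕ) (hd : d < E) : PPL u (4 ^ E + 4 ^ d) ≤ E + d + 4 := by
  obtain ⟨E, rfl⟩ : ∃ F, E = F + 1 := ⟨E - 1, by omega⟩
  obtain ⟨w, h1, h2, h3, h4⟩ := chainR E d (by omega)
  have h5 := edge (i := w) (j := 4 ^ (E + 1) + 4 ^ d - 1) (by omega)
    (symM _ _ (4 ^ (E + 1) + 4 ^ d) (fun s p a b c =>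
      gapR (by omega) (by omega) (by omega) (by omega) (by omega) c) (by omega))
  have h6 := edge (Nat.le_succ _) (pal_one (4 ^ (E + 1) + 4 ^ d - 1))
  rw [Nat.succ_eq_add_one, Nat.sub_add_cancel (by omega)] at h6
  omega

theorem chainU (E : ℕ) : ∃ w, 5 * 4 ^ E ≤ w ∧ w < 8 * 4 ^ E ∧ PPL u w ≤ E + 5 := by
  induction E with
  | zero => exact ⟨5, by simp, by simp, PPL_le (fac_self 5)⟩
  | succ E ih =>
    obtain ⟨v, h1, h2, h3⟩ := ih
    have := ps E
    have := edge (i := v) (j := 28 * 4 ^ E - 1 - v) (by omega) (symZ E _ _ (by omega) h1)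
    exact ⟨28 * 4 ^ E - 1 - v, by omega, by omega, by omega⟩

theorem chainD (d x : ℕ) : PPL u (4 ^ (d + 1 + x) + 4 ^ (d + 1) - 1) ≤ d + 6 + 2 * x := by
  have := ps d
  have := pp d
  induction x with
  | zero =>
    obtain ⟨w, h1, h2, h3⟩ := chainU d
    have := edge (i := w) (j := 4 ^ (d + 1) + 4 ^ (d + 1) - 1) (by omega)
      (symM _ _ (4 ^ (d + 1) + 4 ^ (d + 1)) (fun s p a b c =>
        gapR le_rfl (by omega) (by omega) (by omega) (by omega) c) (by omega))
    rw [add_zero]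
    omega
  | succ x ih =>
    rw [show d + 1 + x = d + x + 1 by ring] at ih
    rw [show d + 1 + (x + 1) = d + x + 1 + 1 by ring]
    have := ps (d + x)
    have := ps (d + x + 1)
    have := ple (show d ≤ d + x by omega)
    have h1 := edge (i := 4 ^ (d + x + 1) + 4 ^ (d + 1) - 1) (j := 12 * 4 ^ (d + x) - 4 ^ (d + 1))
      (by omega) (symC (d + x) _ _ (by omega) (by omega))
    have h2 := edge (i := 12 * 4 ^ (d + x) - 4 ^ (d + 1)) (j := 4 ^ (d + x + 1 + 1) + 4 ^ (d + 1) - 1)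
      (by omega) (symZ (d + x) _ _ (by omega) (by omega))
    omega

noncomputable def g (x y : ℕ) : ℤ := PPL u (4 ^ (y + 1) * (4 ^ (x + 1) + 1))

theorem g_bound (x y : ℕ) : min (x + 2 * y : ℤ) (2 * x + y) ≤ g x y ∧
    g x y ≤ min (x + 2 * y : ℤ) (2 * x + y) + 9 := by
  have e : 4 ^ (y + 1) * (4 ^ (x + 1) + 1) = 4 ^ (y + 1 + (x + 1)) + 4 ^ (y + 1) := by ring
  have h1 := upper1 (y + 1 + (x + 1)) (y + 1) (by omega)
  have h2 := chainD y (x + 1)
  have := pp (y + 1)
  have h3 := edge (Nat.le_succ _) (pal_one (4 ^ (y + 1 + (x + 1)) + 4 ^ (y + 1) - 1))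
  rw [Nat.succ_eq_add_one, Nat.sub_add_cancel (this.trans (Nat.le_add_left _ _))] at h3
  have h4 := Φ_le (4 ^ (y + 1 + (x + 1)) + 4 ^ (y + 1))
  have := p4 (show y + 1 < y + 1 + (x + 1) by omega)
  rw [Φ_R _ _ (4 ^ (y + 1)) rfl (by omega), l_eq (d := y + 1) le_rfl (by omega)] at h4
  rw [g, e]
  omega

theorem not_regular : ¬ Regular 4 fun n => (PPL u n : ℤ) := by
  intro h
  let δ : ℕ → ℕ → ℤ := fun y n => (PPL u (4 ^ (y + 1 + 1) * n) : ℤ) - PPL u (4 ^ (y + 1) * n)
  have h1 : (Submodule.span ℤ (Set.range δ)).FG := by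
    refine Submodule.FG.of_le h (Submodule.span_le.2 ?_)
    rintro _ ⟨y, rfl⟩
    exact Submodule.sub_mem _ (Submodule.subset_span ⟨y + 1 + 1, 0, pp _, rfl⟩)
      (Submodule.subset_span ⟨y + 1, 0, pp _, rfl⟩)
  obtain ⟨T, hT, e⟩ := (Submodule.fg_span_iff_fg_span_finset_subset _).1 h1
  have hb : ∀ x, ∀ t ∈ T, t (4 ^ (x + 1) + 1) ∈ Set.Icc (-20 : ℤ) 20 := by
    intro x t ht
    obtain ⟨y, rfl⟩ := hT ht
    have a := g_bound x y
    have b := g_bound x (y + 1)
    have c : δ y (4 ^ (x + 1) + 1) = g x (y + 1) - g x y := rfl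
    rw [c]
    push_cast at b
    constructor <;> omega
  obtain ⟨a, b, hab, eq⟩ := Set.Finite.exists_lt_map_eq_of_forall_mem
    (f := fun (a : ℕ) (t : T) => t.1 (4 ^ (20 * a + 1) + 1))
    (t := Set.pi Set.univ fun _ => Set.Icc (-20 : ℤ) 20)
    (fun a t _ => hb _ t.1 t.2) (Set.Finite.pi fun _ => Set.finite_Icc _ _)
  have h2 : ∀ f ∈ Submodule.span ℤ (T : Set (ℕ → ℤ)),
      f (4 ^ (20 * a + 1) + 1) = f (4 ^ (20 * b + 1) + 1) := by
    intro f hf
    induction hf using Submodule.span_induction with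
    | mem f hf => exact congrFun eq ⟨f, hf⟩
    | zero => rfl
    | add f f' _ _ h h' => simp [h, h']
    | smul c f _ h => simp [h]
  have h3 : ∀ y : ℕ, g (20 * a) y - g (20 * a) 0 = g (20 * b) y - g (20 * b) 0 := by
    intro y
    induction y with
    | zero => simp
    | succ y ih =>
      have : g (20 * a) (y + 1) - g (20 * a) y = g (20 * b) (y + 1) - g (20 * b) y :=
        h2 (δ y) (e ▸ Submodule.subset_span ⟨y, rfl⟩)
      omega
  have := h3 (20 * b)
  have := g_bound (20 * a) (20 * b)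
  have := g_bound (20 * b) (20 * b)
  have := g_bound (20 * a) 0
  have := g_bound (20 * b) 0
  push_cast at *
  omega

def PA (m : ℕ) : Prop := ∃ E, m = 4 ^ E
def PB (m : ℕ) : Prop := ∃ E, m + 1 = 3 * 4 ^ E
def PC (p m : ℕ) : Prop := ∃ E t, t ≤ E ∧ t % 2 = p ∧ m = 4 ^ E + 4 ^ t
def PD (p m : ℕ) : Prop := ∃ E t, t ≤ E ∧ t % 2 = p ∧ m + 4 ^ t = 3 * 4 ^ E

theorem PA_step (m r : ℕ) (hr : r < 4) : PA (4 * m + r) ↔ (m = 0 ∧ r = 1) ∨ (PA m ∧ r = 0) := by
  constructor
  · rintro ⟨_ | E, h⟩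
    · left; omega
    · rw [ps] at h; exact Or.inr ⟨⟨E, by omega⟩, by omega⟩
  · rintro (⟨rfl, rfl⟩ | ⟨⟨E, rfl⟩, rfl⟩)
    · exact ⟨0, rfl⟩
    · exact ⟨E + 1, by ring⟩

theorem PB_step (m r : ℕ) (hr : r < 4) : PB (4 * m + r) ↔ (m = 0 ∧ r = 2) ∨ (PB m ∧ r = 3) := by
  constructor
  · rintro ⟨_ | E, h⟩
    · left; omega
    · rw [ps] at h; exact Or.inr ⟨⟨E, by omega⟩, by omega⟩
  · rintro (⟨rfl, rfl⟩ | ⟨⟨E, h⟩, rfl⟩)
    · exact ⟨0, rfl⟩
    · exact ⟨E + 1, by rw [ps]; omega⟩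

theorem PC_step (p q m r : ℕ) (hr : r < 4) (hpq : p + q = 1) : PC p (4 * m + r) ↔
    (p = 0 ∧ m = 0 ∧ r = 2) ∨ (p = 0 ∧ PA m ∧ r = 1) ∨ (PC q m ∧ r = 0) := by
  constructor
  · rintro ⟨_ | E, _ | t, h1, h2, h⟩
    · left; omega
    · omega
    · rw [ps] at h; exact Or.inr (Or.inl ⟨by omega, ⟨E, by omega⟩, by omega⟩)
    · rw [ps, ps] at h
      exact Or.inr (Or.inr ⟨⟨E, t, by omega, by omega, by omega⟩, by omega⟩)
  · rintro (⟨rfl, rfl, rfl⟩ | ⟨rfl, ⟨E, rfl⟩, rfl⟩ | ⟨⟨E, t, h1, h2, rfl⟩, rfl⟩)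
    · exact ⟨0, 0, le_rfl, rfl, rfl⟩
    · exact ⟨E + 1, 0, by omega, rfl, by ring⟩
    · exact ⟨E + 1, t + 1, by omega, by omega, by ring⟩

theorem PD_step (p q m r : ℕ) (hr : r < 4) (hpq : p + q = 1) : PD p (4 * m + r) ↔
    (p = 0 ∧ PB (4 * m + r)) ∨ (PD q m ∧ r = 0) := by
  constructor
  · rintro ⟨_ | E, _ | t, h1, h2, h⟩
    · exact Or.inl ⟨by omega, 0, by omega⟩
    · omega
    · exact Or.inl ⟨by omega, E + 1, by omega⟩
    · rw [ps, ps] at h
      exact Or.inr ⟨⟨E, t, by omega, by omega, by omega⟩, by omega⟩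
  · rintro (⟨rfl, E, h⟩ | ⟨⟨E, t, h1, h2, h⟩, rfl⟩)
    · exact ⟨E, 0, by omega, rfl, by omega⟩
    · exact ⟨E + 1, t + 1, by omega, by omega, by rw [ps, ps]; omega⟩

def τ (m : ℕ) : Prop × Prop × Prop × Prop × Prop × Prop × Prop :=
  (m = 0, PA m, PB m, PC 0 m, PC 1 m, PD 0 m, PD 1 m)

theorem τ_step {m m' : ℕ} (h : τ m = τ m') (r : ℕ) (hr : r < 4) :
    τ (4 * m + r) = τ (4 * m' + r) := by
  simp only [τ, Prod.mk.injEq, eq_iff_iff] at h ⊢
  obtain ⟨h0, h1, h2, h3, h4, h5, h6⟩ := h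
  simp only [PA_step _ r hr, PB_step _ r hr, PC_step 0 1 _ r hr rfl, PC_step 1 0 _ r hr rfl,
    PD_step 0 1 _ r hr rfl, PD_step 1 0 _ r hr rfl, h0, h1, h2, h3, h4, h5, h6, and_true]
  omega

theorem Mk_iff (p m : ℕ) : Mk p m ↔ PC p m ∨ PD p m := by
  simp only [Mk, PC, PD, and_or_left, exists_or]

theorem u_τ {m m' : ℕ} (h : τ m = τ m') : u m = u m' := by
  simp only [τ, Prod.mk.injEq, eq_iff_iff] at h
  obtain ⟨h0, h1, h2, h3, h4, h5, h6⟩ := h
  have a : Mk 0 m ↔ Mk 0 m' := by rw [Mk_iff, Mk_iff, h3, h5]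
  have b : Mk 1 m ↔ Mk 1 m' := by rw [Mk_iff, Mk_iff, h4, h6]
  refine u_congr fun p => ⟨fun h => ?_, fun h => ?_⟩ <;> rcases Mk_lt h with rfl | rfl
  exacts [a.1 h, b.1 h, a.2 h, b.2 h]

open Classical in
theorem automatic : Automatic 4 u := by
  refine ⟨_, inferInstance, τ 0,
    fun s r => if h : ∃ m, τ m = s then τ (4 * h.choose + r) else s,
    fun s => if h : ∃ m, τ m = s then u h.choose else 0, fun n => ?_⟩
  have key : ∀ n, (Nat.digits 4 n).reverse.foldl
      (fun s r => if h : ∃ m, τ m = s then τ (4 * h.choose + r) else s) (τ 0) = τ n := by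
    intro n
    induction n using Nat.strong_induction_on with
    | _ n ih =>
      rcases Nat.eq_zero_or_pos n with rfl | hn
      · simp
      · rw [Nat.digits_def' (by norm_num) hn, List.reverse_cons, List.foldl_append,
          ih _ (by omega)]
        have h : ∃ m, τ m = τ (n / 4) := ⟨_, rfl⟩
        simp only [List.foldl_cons, List.foldl_nil, dif_pos h]
        rw [τ_step h.choose_spec _ (by omega), Nat.div_add_mod]
  rw [key]
  have h : ∃ m, τ m = τ n := ⟨_, rfl⟩
  simp only [dif_pos h]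
  exact (u_τ h.choose_spec).symm

/-- There is a `d`-automatic word whose prefix palindromic length is not `d`-regular. -/
theorem result : ∃ (d : ℕ) (A : Type) (_ : Finite A) (w : ℕ → A), 2 ≤ d ∧ Automatic d w ∧
    ¬ Regular d fun n => (PPL w n : ℤ) :=
  ⟨4, Fin 3, inferInstance, u, by norm_num, automatic, not_regular⟩

end Pool.Agent.Results.MP_f91ac8_co.NotRegular
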